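import Pool.Agent.H854.LU.Main

set_option autoImplicit false

/-!
# MP_b525bf_ag: local uniformization in characteristic `p` as a statement on `p`-th powers

Let `k` be an infinite field of characteristic `p`. Every smooth variety over `k` is covered by open
subsets that are components of hypersurfaces `z + g(x,z) ^ p = 0`. A valuation ring `V` of a
function field `K / k` of transcendence degree `n` is uniformizable over a subring `A` with field of
fractions `K` if and only if there are `x_1, ..., x_n, w` in `V` with `A ⊆ k[x_1, ..., x_n, w]` and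
`w ∈ k[x_1, ..., x_n, w ^ p]`.
-/

open CategoryTheory AlgebraicGeometry Pool.Agent.H854.LU.Stm

namespace Pool.Agent.Results.MP_b525bf_ag.ChartsByPthPowers

theorem result (p : ℕ) [Fact p.Prime] (k : Type) [Field k] [Infinite k] [CharP k p] :
    (∀ (n : ℕ) (X : Scheme.{0}) (f : X ⟶ Spec (.of k)), IsIntegral X →
      (SmoothOfRelativeDimension n f ↔ ∀ x : X, ∃ P : Polynomial (MvPolynomial (Fin n) k),
        IsComponent p P ∧ HasNeighbourhood f x P)) ∧
    ∀ (K : Type) [Field K] [Algebra k K] (n : ℕ) (A : Subalgebra k K),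
      Algebra.trdeg k K = n → IsFractionRing A K →
      (∀ (x : Fin n → K) (w : K), IsChart k p A x w → Algebra.Smooth k (ring k x w)) ∧
      (∀ V : ValuationSubring K, (A : Set K) ⊆ V →
        (Uniformizable k A V ↔ ∃ (x : Fin n → K) (w : K), InRing V x w ∧ IsChart k p A x w)) ∧
      (∀ V : ValuationSubring K, Uniformizable k A V → ∃ (x : Fin n → K) (w : K),
        InRing V x w ∧ IsChart k p A x w ∧ IsIntegral (Algebra.adjoin k (Set.range x)) w) ∧
      ((∀ V : ValuationSubring K, (A : Set K) ⊆ V → Uniformizable k A V) ↔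
        ∃ (N : ℕ) (x : Fin N → Fin n → K) (w : Fin N → K), (∀ j, IsChart k p A (x j) (w j)) ∧
          ∀ V : ValuationSubring K, (A : Set K) ⊆ V → ∃ j, InRing V (x j) (w j)) ∧
      (Resolvable (Spec.map (CommRingCat.ofHom (algebraMap k A))) →
        ∃ (N : ℕ) (x : Fin N → Fin n → K) (w : Fin N → K), (∀ j, IsChart k p A (x j) (w j)) ∧
          ∀ V : ValuationSubring K, (A : Set K) ⊆ V → ∃ j, InRing V (x j) (w j)) := by
  refine ⟨fun n X f hX => Pool.Agent.H854.LU.smooth_iff_charts p k n X f,
    fun K _ _ n A hn hA => ?_⟩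
  refine ⟨fun x w h => Pool.Agent.H854.LU.IsChart.smooth hn hA h,
    fun V hV => Pool.Agent.H854.LU.uniformizable_iff hn hA hV,
    fun V h => Pool.Agent.H854.LU.chart_of_uniformizable hn hA h,
    Pool.Agent.H854.LU.finite_system_iff hn hA, fun h => ?_⟩
  exact (Pool.Agent.H854.LU.finite_system_iff hn hA).mp fun V hV =>
    Pool.Agent.H854.LU.uniformizable_of_resolvable h hV

end Pool.Agent.Results.MP_b525bf_ag.ChartsByPthPowers
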