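import Pool.Agent.H413.BR.B55
import Mathlib.FieldTheory.IntermediateField.Adjoin.Basic

/-!
MP_b525bf_ag: resolution of singularities along all curves of bounded degree, in all dimensions and
characteristics: let `X` be a projective variety and `Z` an intersection of hyperplane sections of `X`
which contains the singular points of `X`. Then there is a sequence of blowings up
`... → X 2 → X 1 → X 0 = X` such that `X (d + 1) → X d` is an isomorphism over all nonsingular points of
`X d`, and such that, for every `d`, the strict transforms in `X d` of ALL curves of degree at most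
`d` in `X` which are not contained in `Z` consist of nonsingular points of `X d`.

As every curve has a degree, the strict transform of every curve which is not contained in `Z` gets
out of the singular locus. (Every closed subset `Z` of `X` is an intersection of hyperplane sections
after a Veronese embedding; and through every point of `X` there are curves of bounded degree which are
not contained in `Z`.)

The variety `X = X_M` is given by its homogeneous coordinates `M`, a finite dimensional subspace of an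
extension field `F` of `k`: it is covered by the spectra of the rings `k[m / g : m ∈ M]`. A curve in `X` is
given by its generic point, a homomorphism `γ` from a chart to the function field `L` of the curve. The
degree of the curve is the largest degree `[L : k(u / v)]` for nonconstant quotients of linear forms
`u`, `v` (the largest degree of its projections to lines). The points of the strict transform are
the centres of the discrete valuation rings `V ⊇ k` of `L` (and the generic point).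
-/

set_option autoImplicit false

open IsLocalRing

namespace Pool.Agent.Results.MP_b525bf_ag.CurvesOfBoundedDegree

variable {k F L : Type} [Field k] [Field F] [Algebra k F] [Field L] [Algebra k L]

/-- The coordinate ring `k[m / g : m ∈ M]` of the chart `g ≠ 0` of the projective variety `X_M`. -/
def coordRing (M : Submodule k F) (g : F) : Subalgebra k F :=
  Algebra.adjoin k {y | ∃ m ∈ M, y = m / g}

/-- The blowing up `X_{M K} → X_M` is an isomorphism over the point `P` of the chart `g`: the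
fractional ideal generated by `K` is principal there, generated by some `j ∈ K`. -/
def IsIsoAt (M K : Submodule k F) (g : F) (P : Ideal (coordRing M g)) : Prop :=
  ∃ j ∈ K, j ≠ 0 ∧ ∀ l ∈ K, ∃ a s : coordRing M g, s ∉ P ∧ l * (s : F) = j * (a : F)

/-- The point `P` of the chart `g` of `X_M` is not in the common zero set `Z` of the linear forms
`f ∈ N`. -/
def IsOutside (M : Submodule k F) (N : Set F) (g : F) (P : Ideal (coordRing M g)) : Prop :=
  ∃ f ∈ N, ∀ h : f / g ∈ coordRing M g, (⟨f / g, h⟩ : coordRing M g) ∉ P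

/-- The element `t` of `L` is algebraic over `k` (a constant) or has degree `[L : k(t)] ≤ δ`. -/
def IsOfDegreeAtMost (k : Type) {L : Type} [Field k] [Field L] [Algebra k L] (t : L) (δ : ℕ) :
    Prop :=
  IsAlgebraic k t ∨ (Module.Finite (IntermediateField.adjoin k {t}) L ∧
    Module.finrank (IntermediateField.adjoin k {t}) L ≤ δ)

/-- The curve with the generic point `γ` (in the chart `g` of `X_M`) with values in the field `L` has
degree at most `δ`: the quotients of the linear forms `u` and `v ≠ 0` on the curve are algebraic over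
`k` (constant) or have degree at most `δ`. -/
def HasDegreeAtMost (M : Submodule k F) (g : F) (γ : coordRing M g →ₐ[k] L) (δ : ℕ) : Prop :=
  ∀ u ∈ M, ∀ v ∈ M, ∀ hu hv, γ ⟨v / g, hv⟩ ≠ 0 →
    IsOfDegreeAtMost k (γ ⟨u / g, hu⟩ / γ ⟨v / g, hv⟩) δ

/-- The point `γ'` of `X_{M J}` with values in `V` (in the chart `g'`) lies over the point `γ` of `X_M`
with values in `L`: the homogeneous coordinates `u j` of the former are those of the latter, `u`, times
factors which do not depend on `u`. -/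
def LiesOver (M J : Submodule k F) (g : F) (γ : coordRing M g →ₐ[k] L) (V : ValuationSubring L)
    (g' : F) (γ' : coordRing (M * J) g' →+* V) : Prop :=
  ∀ u ∈ M, ∀ j ∈ J, ∀ h₁ h₂ h₃,
    ((γ' ⟨u * j / g', h₁⟩ : V) : L) = γ ⟨u / g, h₂⟩ * ((γ' ⟨g * j / g', h₃⟩ : V) : L)

/-- The point `γ` of `X_M` with values in `L` lifts to the blowing up `X_{M J}`, and extends to a
morphism from the spectrum of `V` to the chart `g'` of `X_{M J}` (so `g'` is a form of largest value),
and `X_{M J}` is regular at the image of the closed point. -/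
def IsRegularOnStrictTransform (M J : Submodule k F) (g : F) (γ : coordRing M g →ₐ[k] L)
    (V : ValuationSubring L) : Prop :=
  ∃ g' ∈ M * J, g' ≠ 0 ∧ ∃ γ' : coordRing (M * J) g' →+* V, LiesOver M J g γ V g' γ' ∧
    IsRegularLocalRing (Localization.AtPrime ((maximalIdeal V).comap γ'))

section ordle


variable {V : Type} [CommRing V] [IsDomain V] {k : Type} [Field k]

/-- values of polynomials at an element of the maximal ideal -/
theorem ord_poly [IsLocalRing V] (κ : k →+* V) {T : V} (hT : T ∈ maximalIdeal V) :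
    ∀ (n : ℕ) (R : Polynomial k), R.natDegree ≤ n → R.eval₂ κ T ≠ 0 →
      ∃ (m : ℕ) (u : Vˣ), R.eval₂ κ T = T ^ m * u := by
  intro n
  induction n with
  | zero =>
    intro R hR h0
    rw [Polynomial.eq_C_of_natDegree_le_zero hR, Polynomial.eval₂_C] at h0 ⊢
    have hc : R.coeff 0 ≠ 0 := by
      intro h
      rw [h, map_zero] at h0
      exact h0 rfl
    refine ⟨0, Units.map (κ : k →* V) (Units.mk0 _ hc), ?_⟩
    rw [pow_zero, one_mul]
    rfl
  | succ n ih =>
    intro R hR h0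
    have h1 : R.eval₂ κ T = R.divX.eval₂ κ T * T + κ (R.coeff 0) := by
      conv_lhs => rw [← Polynomial.divX_mul_X_add R]
      rw [Polynomial.eval₂_add, Polynomial.eval₂_mul, Polynomial.eval₂_X, Polynomial.eval₂_C]
    by_cases hc : R.coeff 0 = 0
    · rw [hc, map_zero, add_zero] at h1
      have h2 : R.divX.eval₂ κ T ≠ 0 := by
        intro h
        rw [h1, h, zero_mul] at h0
        exact h0 rfl
      obtain ⟨m, u, hu⟩ := ih R.divX (by
        rw [Polynomial.natDegree_divX_eq_natDegree_tsub_one]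
        omega) h2
      exact ⟨m + 1, u, by rw [h1, hu]; ring⟩
    · have h3 : IsUnit (R.eval₂ κ T) := by
        by_contra h4
        have h5 : R.eval₂ κ T ∈ maximalIdeal V := (mem_maximalIdeal _).2 h4
        have h6 : κ (R.coeff 0) ∈ maximalIdeal V := by
          have h7 : κ (R.coeff 0) = R.eval₂ κ T - R.divX.eval₂ κ T * T := by
            rw [h1]; ring
          rw [h7]
          exact sub_mem h5 (Ideal.mul_mem_left _ _ hT)
        exact ((mem_maximalIdeal _).1 h6) ((Units.mk0 _ hc).isUnit.map κ)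
      obtain ⟨u, hu⟩ := h3
      exact ⟨0, u, by rw [pow_zero, one_mul, hu]⟩

/-- elements of different orders -/
theorem ord_sum [IsDiscreteValuationRing V] (κ : k →+* V) {T ϖ : V} (hϖ : Irreducible ϖ) {e : ℕ}
    (he : 0 < e) {u0 : Vˣ} (hT : T = u0 * ϖ ^ e) (R : Fin e → Polynomial k)
    (h : ∑ i : Fin e, (R i).eval₂ κ T * ϖ ^ (i : ℕ) = 0) : ∀ i, (R i).eval₂ κ T = 0 := by
  classical
  have hTm : T ∈ maximalIdeal V := by
    rw [hT, hϖ.maximalIdeal_eq]
    exact Ideal.mul_mem_left _ _ (Ideal.mem_span_singleton.2 (dvd_pow_self ϖ he.ne'))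
  by_contra hcon
  push Not at hcon
  have h1 : ∀ i, ∃ m : ℕ, (R i).eval₂ κ T ≠ 0 →
      ∃ u : Vˣ, (R i).eval₂ κ T * ϖ ^ (i : ℕ) = u * ϖ ^ (e * m + i) := by
    intro i
    by_cases h0 : (R i).eval₂ κ T = 0
    · exact ⟨0, fun h2 => absurd h0 h2⟩
    · obtain ⟨m, u, hu⟩ := ord_poly κ hTm _ (R i) le_rfl h0
      refine ⟨m, fun _ => ⟨u0 ^ m * u, ?_⟩⟩
      rw [hu, hT]
      push_cast
      ring
  choose m hm using h1
  obtain ⟨i1, hi1⟩ := hcon
  obtain ⟨i0, hi0, hmin⟩ := Finset.exists_min_image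
    ((Finset.univ : Finset (Fin e)).filter (fun i => (R i).eval₂ κ T ≠ 0))
    (fun i => e * m i + (i : ℕ)) ⟨i1, Finset.mem_filter.2 ⟨Finset.mem_univ _, hi1⟩⟩
  rw [Finset.mem_filter] at hi0
  obtain ⟨u, hu⟩ := hm i0 hi0.2
  have hdvd : ∀ i, i ≠ i0 → ϖ ^ (e * m i0 + i0 + 1) ∣ (R i).eval₂ κ T * ϖ ^ (i : ℕ) := by
    intro i hi
    by_cases h0 : (R i).eval₂ κ T = 0
    · rw [h0, zero_mul]
      exact dvd_zero _
    · obtain ⟨w, hw⟩ := hm i h0
      rw [hw]
      apply Dvd.dvd.mul_left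
      apply pow_dvd_pow
      have h2 := hmin i (Finset.mem_filter.2 ⟨Finset.mem_univ _, h0⟩)
      have h3 : e * m i0 + (i0 : ℕ) ≠ e * m i + (i : ℕ) := by
        intro h4
        apply hi
        apply Fin.ext
        have h5 := congrArg (fun x => x % e) h4
        simp only [Nat.mul_add_mod] at h5
        rw [Nat.mod_eq_of_lt i0.2, Nat.mod_eq_of_lt i.2] at h5
        exact h5.symm
      have h6 : e * m i0 + (i0 : ℕ) ≤ e * m i + (i : ℕ) := h2
      omega
  have h7 : ϖ ^ (e * m i0 + i0 + 1) ∣ (R i0).eval₂ κ T * ϖ ^ (i0 : ℕ) := by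
    rw [← Finset.add_sum_erase _ _ (Finset.mem_univ i0)] at h
    rw [eq_neg_of_add_eq_zero_left h]
    rw [dvd_neg]
    apply Finset.dvd_sum
    intro i hi
    exact hdvd i (Finset.ne_of_mem_erase hi)
  rw [hu, pow_succ, mul_comm (u : V)] at h7
  have h8 : ϖ ∣ (u : V) := (mul_dvd_mul_iff_left (pow_ne_zero _ hϖ.ne_zero)).1 h7
  exact hϖ.not_isUnit (isUnit_of_dvd_unit h8 u.isUnit)

end ordle

/-- BR57. The order of `t` in `V` is at most `[L : k(t)]`. Proof. If `t` is algebraic over `k` then `t⁻¹` is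
integral over `k`, hence in `V` (integrally closed), so `t` is a unit of `V`. Otherwise let
`ϖ` be a uniformizer and suppose that `t ∈ 𝔪 ^ (δ + 1)`, so `e = ord t ≥ δ + 1` (if `t` is a unit there is
nothing to do). Every nonzero `a ∈ k(t)` is `t ^ m` (`m ∈ ℤ`) times a unit of `V` (a polynomial
`c₀ + c₁ t + …` with `c₀ ≠ 0` is a unit as `c₀ ∈ k^×` and `t ∈ 𝔪`; so `a = t ^ m f(t) / g(t)`), so its order is a
multiple of `e`. Hence `1, ϖ, …, ϖ ^ (e - 1)` are linearly independent over `k(t)` (the orders of the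
nonzero terms of `∑ aᵢ ϖ ^ i` are different modulo `e`), and `e ≤ [L : k(t)] ≤ δ`, contradiction. -/
theorem ord_le {k L : Type} [Field k] [Field L] [Algebra k L] (V : ValuationSubring L)
    [IsDiscreteValuationRing V] (hk : ∀ a, algebraMap k L a ∈ V) {t : L} (ht : t ∈ V) (ht0 : t ≠ 0)
    {δ : ℕ} (h : IsAlgebraic k t ∨ (Module.Finite (IntermediateField.adjoin k {t}) L ∧
      Module.finrank (IntermediateField.adjoin k {t}) L ≤ δ)) :
    (⟨t, ht⟩ : V) ∉ maximalIdeal V ^ (δ + 1) := by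
  classical
  intro hmem
  set T : V := ⟨t, ht⟩ with hTdef
  let κ : k →+* V := (algebraMap k L).codRestrict V.toSubring.toSubsemiring hk
  have hκ : ∀ a, ((κ a : V) : L) = algebraMap k L a := fun a => rfl
  have hE : ∀ R : Polynomial k, ((R.eval₂ κ T : V) : L) = Polynomial.aeval t R := by
    intro R
    have h1 : V.subtype (R.eval₂ κ T) = Polynomial.eval₂ (V.subtype.comp κ) (V.subtype T) R :=
      Polynomial.hom_eval₂ R κ V.subtype T
    rw [Polynomial.aeval_def]
    exact h1
  have hTm : T ∈ maximalIdeal V := Ideal.pow_le_self (Nat.succ_ne_zero δ) hmem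
  have hT0 : T ≠ 0 := by
    intro h0
    apply ht0
    exact congrArg Subtype.val h0
  rcases h with h | ⟨hfin, hrk⟩
  · have hint : IsIntegral k t := h.isIntegral
    have hc : (minpoly k t).coeff 0 ≠ 0 := minpoly.coeff_zero_ne_zero hint ht0
    have h1 : (minpoly k t).eval₂ κ T = (minpoly k t).divX.eval₂ κ T * T +
        κ ((minpoly k t).coeff 0) := by
      conv_lhs => rw [← Polynomial.divX_mul_X_add (minpoly k t)]
      rw [Polynomial.eval₂_add, Polynomial.eval₂_mul, Polynomial.eval₂_X, Polynomial.eval₂_C]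
    have h2 : (minpoly k t).eval₂ κ T = 0 := by
      apply Subtype.ext
      rw [hE, minpoly.aeval]
      rfl
    rw [h2] at h1
    have h6 : κ ((minpoly k t).coeff 0) ∈ maximalIdeal V := by
      have h7 : κ ((minpoly k t).coeff 0) = - ((minpoly k t).divX.eval₂ κ T * T) := by
        linear_combination -h1
      rw [h7]
      exact neg_mem (Ideal.mul_mem_left _ _ hTm)
    exact ((mem_maximalIdeal _).1 h6) ((Units.mk0 _ hc).isUnit.map κ)
  · obtain ⟨ϖ, hϖ⟩ := IsDiscreteValuationRing.exists_irreducible V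
    obtain ⟨e, u0, hu0⟩ := IsDiscreteValuationRing.eq_unit_mul_pow_irreducible hT0 hϖ
    have he : δ + 1 ≤ e := by
      rw [hϖ.maximalIdeal_eq, Ideal.span_singleton_pow, Ideal.mem_span_singleton, hu0,
        Units.dvd_mul_left] at hmem
      exact (pow_dvd_pow_iff hϖ.ne_zero hϖ.not_isUnit).1 hmem
    have hli : LinearIndependent (IntermediateField.adjoin k {t})
        (fun i : Fin e => ((ϖ : V) : L) ^ (i : ℕ)) := by
      rw [Fintype.linearIndependent_iff]
      intro a ha
      have hrs : ∀ i, ∃ r s : Polynomial k, Polynomial.aeval t s ≠ 0 ∧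
          ((a i : IntermediateField.adjoin k {t}) : L) = Polynomial.aeval t r / Polynomial.aeval t s := by
        intro i
        obtain ⟨r, s, hrs⟩ := (IntermediateField.mem_adjoin_simple_iff k _).1 (a i).2
        by_cases hs : Polynomial.aeval t s = 0
        · refine ⟨0, 1, ?_, ?_⟩
          · rw [map_one]
            exact one_ne_zero
          · rw [hrs, hs, div_zero, map_zero, zero_div]
        · exact ⟨r, s, hs, hrs⟩
      choose r s hs hr using hrs
      have hsum : ∑ i : Fin e, (r i * ∏ j ∈ Finset.univ.erase i, s j).eval₂ κ T * ϖ ^ (i : ℕ) = 0 := by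
        apply Subtype.ext
        have h1 : ((∑ i : Fin e, (r i * ∏ j ∈ Finset.univ.erase i, s j).eval₂ κ T * ϖ ^ (i : ℕ) : V) : L) =
            (∏ j, Polynomial.aeval t (s j)) * ∑ i : Fin e, a i • ((ϖ : V) : L) ^ (i : ℕ) := by
          rw [Finset.mul_sum]
          have h2 : ((∑ i : Fin e, (r i * ∏ j ∈ Finset.univ.erase i, s j).eval₂ κ T * ϖ ^ (i : ℕ) : V) : L) =
              ∑ i : Fin e, (((r i * ∏ j ∈ Finset.univ.erase i, s j).eval₂ κ T * ϖ ^ (i : ℕ) : V) : L) :=
            map_sum V.subtype _ _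
          rw [h2]
          apply Finset.sum_congr rfl
          intro i _
          have h3 : (((r i * ∏ j ∈ Finset.univ.erase i, s j).eval₂ κ T * ϖ ^ (i : ℕ) : V) : L) =
              (((r i * ∏ j ∈ Finset.univ.erase i, s j).eval₂ κ T : V) : L) * ((ϖ : V) : L) ^ (i : ℕ) := by
            push_cast
            rfl
          rw [h3, hE, map_mul, map_prod, Algebra.smul_def,
            ← Finset.mul_prod_erase Finset.univ _ (Finset.mem_univ i)]
          have h4 : algebraMap (IntermediateField.adjoin k {t}) L (a i) =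
              Polynomial.aeval t (r i) / Polynomial.aeval t (s i) := hr i
          rw [h4]
          have h5 := hs i
          field_simp
        rw [h1, ha, mul_zero]
        rfl
      have hz := ord_sum κ hϖ (by omega) hu0 _ hsum
      intro i
      have h1 := congrArg (Subtype.val : V → L) (hz i)
      rw [hE, map_mul, map_prod] at h1
      have h2 : Polynomial.aeval t (r i) = 0 := by
        rcases mul_eq_zero.1 h1 with h3 | h3
        · exact h3
        · exfalso
          rw [Finset.prod_eq_zero_iff] at h3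
          obtain ⟨j, _, hj⟩ := h3
          exact hs j hj
      apply Subtype.ext
      rw [hr i, h2, zero_div]
      rfl
    have h9 := hli.fintype_card_le_finrank
    rw [Fintype.card_fin] at h9
    omega

/-- BR58. An `L`-valued point of a chart moves to the chart of its specialization. -/
theorem chart_trait {k F L : Type} [Field k] [Field F] [Algebra k F] [Field L]
    {M : Submodule k F} (hM : M.FG) {g : F} (hg : g ∈ M) (hg0 : g ≠ 0) (γ : coordRing M g →+* L)
    (V : ValuationSubring L) (hk : ∀ a : k, γ (algebraMap k (coordRing M g) a) ∈ V) :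
    ∃ g₁ ∈ M, g₁ ≠ 0 ∧ (∀ h, γ ⟨g₁ / g, h⟩ ≠ 0) ∧ ∃ γ₁ : coordRing M g₁ →+* V,
      ∀ u ∈ M, ∀ h₁ h₂ h₃, (γ₁ ⟨u / g₁, h₁⟩ : L) * γ ⟨g₁ / g, h₂⟩ = γ ⟨u / g, h₃⟩ := by
  have hmem : ∀ u ∈ M, u / g ∈ coordRing M g := fun u hu => Algebra.subset_adjoin ⟨u, hu, rfl⟩
  obtain ⟨G, hG⟩ := hM
  have hGM : ∀ x ∈ G, x ∈ M := fun x hx => by
    rw [← hG]
    exact Submodule.subset_span hx
  have hGne : G.attach.Nonempty := by
    rw [Finset.attach_nonempty_iff]
    by_contra hne
    rw [Finset.not_nonempty_iff_eq_empty] at hne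
    rw [← hG, hne, Finset.coe_empty, Submodule.span_empty, Submodule.mem_bot] at hg
    exact hg0 hg
  obtain ⟨⟨g₁, hg₁G⟩, -, hmax⟩ := Finset.exists_max_image G.attach
    (fun x => V.valuation (γ ⟨x.1 / g, hmem x.1 (hGM x.1 x.2)⟩)) hGne
  have hg₁ : g₁ ∈ M := hGM g₁ hg₁G
  -- the element `c`
  obtain ⟨c, hc⟩ : ∃ c : coordRing M g, c = ⟨g₁ / g, hmem g₁ hg₁⟩ := ⟨_, rfl⟩
  have hcF : (c : F) = g₁ / g := by rw [hc]
  have hle : ∀ u ∈ M, ∀ h : u / g ∈ coordRing M g, V.valuation (γ ⟨u / g, h⟩) ≤ V.valuation (γ c) := by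
    intro u hu
    have hu' : u ∈ Submodule.span k (G : Set F) := by rwa [hG]
    induction hu' using Submodule.span_induction with
    | mem x hx =>
      intro h
      rw [hc]
      exact hmax ⟨x, hx⟩ (Finset.mem_attach _ _)
    | zero =>
      intro h
      have e1 : (⟨0 / g, h⟩ : coordRing M g) = 0 := Subtype.ext (zero_div g)
      rw [e1, map_zero, map_zero]
      exact zero_le
    | add x y hx hy ihx ihy =>
      intro h
      have hx' : x ∈ M := by rwa [hG] at hx
      have hy' : y ∈ M := by rwa [hG] at hy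
      have e1 : (⟨(x + y) / g, h⟩ : coordRing M g) = ⟨x / g, hmem x hx'⟩ + ⟨y / g, hmem y hy'⟩ :=
        Subtype.ext (add_div x y g)
      rw [e1, map_add]
      exact Valuation.map_add_le _ (ihx hx' _) (ihy hy' _)
    | smul a x hx ihx =>
      intro h
      have hx' : x ∈ M := by rwa [hG] at hx
      have e1 : (⟨(a • x) / g, h⟩ : coordRing M g) =
          algebraMap k (coordRing M g) a * ⟨x / g, hmem x hx'⟩ := by
        apply Subtype.ext
        change (a • x) / g = algebraMap k F a * (x / g)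
        rw [Algebra.smul_def, mul_div_assoc]
      rw [e1, map_mul, map_mul]
      have h1 : V.valuation (γ (algebraMap k (coordRing M g) a)) ≤ 1 :=
        (V.valuation_le_one_iff _).2 (hk a)
      calc V.valuation (γ (algebraMap k (coordRing M g) a)) * V.valuation (γ ⟨x / g, hmem x hx'⟩)
          ≤ 1 * V.valuation (γ c) := mul_le_mul' h1 (ihx hx' _)
        _ = _ := one_mul _
  have hγc : γ c ≠ 0 := by
    intro h0
    have h1 := hle g hg (hmem g hg)
    have e1 : (⟨g / g, hmem g hg⟩ : coordRing M g) = 1 := Subtype.ext (div_self hg0)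
    rw [e1, map_one, map_one, h0, map_zero] at h1
    exact absurd h1 (not_le.mpr zero_lt_one)
  have hg₁0 : g₁ ≠ 0 := by
    intro h0
    apply hγc
    have e1 : c = 0 := Subtype.ext (by rw [hcF, h0, zero_div]; rfl)
    rw [e1, map_zero]
  -- the graph
  obtain ⟨P, hP⟩ : ∃ P : F → L → Prop, P = fun x y => ∃ (n : ℕ) (b : coordRing M g),
      x * (c : F) ^ n = b ∧ y * (γ c) ^ n = γ b := ⟨_, rfl⟩
  have Puniq : ∀ x y y', P x y → P x y' → y = y' := by
    rw [hP]
    rintro x y y' ⟨n, b, h1, h2⟩ ⟨n', b', h1', h2'⟩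
    have e1 : b * c ^ n' = b' * c ^ n := by
      apply Subtype.ext
      push_cast
      rw [← h1, ← h1']
      ring
    have e2 : γ b * γ c ^ n' = γ b' * γ c ^ n := by
      rw [← map_pow, ← map_pow, ← map_mul, ← map_mul, e1]
    rw [← h2, ← h2'] at e2
    have e3 : (y - y') * γ c ^ (n + n') = 0 := by
      rw [pow_add]
      linear_combination e2
    rcases mul_eq_zero.1 e3 with h | h
    · exact sub_eq_zero.1 h
    · exact absurd h (pow_ne_zero _ hγc)
  have Padd : ∀ x x' y y', P x y → P x' y' → P (x + x') (y + y') := by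
    rw [hP]
    rintro x x' y y' ⟨n, b, h1, h2⟩ ⟨n', b', h1', h2'⟩
    refine ⟨n + n', b * c ^ n' + b' * c ^ n, ?_, ?_⟩
    · push_cast
      rw [← h1, ← h1']
      ring
    · rw [map_add, map_mul, map_mul, map_pow, map_pow, ← h2, ← h2']
      ring
  have Pmul : ∀ x x' y y', P x y → P x' y' → P (x * x') (y * y') := by
    rw [hP]
    rintro x x' y y' ⟨n, b, h1, h2⟩ ⟨n', b', h1', h2'⟩
    refine ⟨n + n', b * b', ?_, ?_⟩
    · push_cast
      rw [← h1, ← h1']
      ring
    · rw [map_mul, ← h2, ← h2']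
      ring
  have Pone : P 1 1 := by
    rw [hP]
    exact ⟨0, 1, by simp, by simp⟩
  have Pzero : P 0 0 := by
    rw [hP]
    exact ⟨0, 0, by simp, by simp⟩
  have Pgen : ∀ u (hu : u ∈ M), P (u / g₁) (γ ⟨u / g, hmem u hu⟩ / γ c) := by
    intro u hu
    rw [hP]
    refine ⟨1, ⟨u / g, hmem u hu⟩, ?_, ?_⟩
    · rw [pow_one, hcF]
      change u / g₁ * (g₁ / g) = u / g
      field_simp
    · rw [pow_one, div_mul_cancel₀ _ hγc]
  have Pex : ∀ x : coordRing M g₁, ∃ y : V, P x y := by
    rintro ⟨x, hx⟩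
    change ∃ y : V, P x y
    induction hx using Algebra.adjoin_induction with
    | mem x hx =>
      obtain ⟨u, hu, rfl⟩ := hx
      refine ⟨⟨γ ⟨u / g, hmem u hu⟩ / γ c, ?_⟩, Pgen u hu⟩
      rw [← V.valuation_le_one_iff, map_div₀]
      have hpos : 0 < V.valuation (γ c) := by
        rw [zero_lt_iff]
        exact (V.valuation.ne_zero_iff).2 hγc
      rw [div_le_one₀ hpos]
      exact hle u hu _
    | algebraMap a =>
      refine ⟨⟨_, hk a⟩, ?_⟩
      rw [hP]
      exact ⟨0, algebraMap k (coordRing M g) a, by rw [pow_zero, mul_one]; rfl, by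
        rw [pow_zero, mul_one]⟩
    | add x y hx hy ihx ihy =>
      obtain ⟨a, ha⟩ := ihx
      obtain ⟨b, hb⟩ := ihy
      exact ⟨a + b, Padd _ _ _ _ ha hb⟩
    | mul x y hx hy ihx ihy =>
      obtain ⟨a, ha⟩ := ihx
      obtain ⟨b, hb⟩ := ihy
      exact ⟨a * b, Pmul _ _ _ _ ha hb⟩
  choose φ hφ using Pex
  have hφu : ∀ (x : coordRing M g₁) (y : V), P x y → φ x = y := fun x y h =>
    Subtype.ext (Puniq _ _ _ (hφ x) h)
  obtain ⟨γ₁, hγ₁⟩ : ∃ γ₁ : coordRing M g₁ →+* V, ∀ x, γ₁ x = φ x :=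
    ⟨{ toFun := φ
       map_one' := hφu 1 1 Pone
       map_mul' := fun x y => hφu _ _ (Pmul _ _ _ _ (hφ x) (hφ y))
       map_zero' := hφu 0 0 Pzero
       map_add' := fun x y => hφu _ _ (Padd _ _ _ _ (hφ x) (hφ y)) }, fun _ => rfl⟩
  have hcc : ∀ h : g₁ / g ∈ coordRing M g, (⟨g₁ / g, h⟩ : coordRing M g) = c :=
    fun h => Subtype.ext hcF.symm
  refine ⟨g₁, hg₁, hg₁0, ?_, γ₁, ?_⟩
  · intro h
    rw [hcc h]
    exact hγc
  · intro u hu h₁ h₂ h₃
    rw [hcc h₂, hγ₁]
    have e2 : (φ ⟨u / g₁, h₁⟩ : L) = γ ⟨u / g, h₃⟩ / γ c :=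
      Puniq _ _ _ (hφ ⟨u / g₁, h₁⟩) (Pgen u hu)
    rw [e2, div_mul_cancel₀ _ hγc]

/-- The sequence of blowings up, in terms of `coordRing`. -/
theorem seq_coord {k F : Type} [Field k] [Field F] [Algebra k F] (M : Submodule k F)
    (hM : M.FG) (hne : ∃ g ∈ M, g ≠ 0) (N : Set F) (hNfin : N.Finite) (hN : N ⊆ M)
    (hreg : ∀ g ∈ M, g ≠ 0 → ∀ (P : Ideal (coordRing M g)) [P.IsPrime], IsOutside M N g P →
      IsRegularLocalRing (Localization.AtPrime P)) :
    ∃ K : ℕ → Submodule k F, (∀ d, (K d).FG ∧ ∃ j ∈ K d, j ≠ 0) ∧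
      (∀ d, ∀ g ∈ M * ∏ i ∈ Finset.range d, K i, g ≠ 0 →
        ∀ (P : Ideal (coordRing (M * ∏ i ∈ Finset.range d, K i) g)) [P.IsPrime],
          IsRegularLocalRing (Localization.AtPrime P) →
          IsIsoAt (M * ∏ i ∈ Finset.range d, K i) (K d) g P) ∧
      ∀ (d : ℕ), ∀ g ∈ M, g ≠ 0 → ∀ (R : Type) [CommRing R] [IsDomain R]
        [IsDiscreteValuationRing R] (γ : coordRing M g →+* R),
        (∃ f ∈ N, ∀ h : f / g ^ 1 ∈ coordRing M g, γ ⟨_, h⟩ ∉ maximalIdeal R ^ (d + 1)) →
        ∃ j ∈ ∏ i ∈ Finset.range d, K i, j ≠ 0 ∧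
          ∃ γ' : coordRing (M * ∏ i ∈ Finset.range d, K i) (g * j) →+* R,
          (∀ (b : F) (hb : b ∈ coordRing M g)
            (hb' : b ∈ coordRing (M * ∏ i ∈ Finset.range d, K i) (g * j)),
            γ' ⟨b, hb'⟩ = γ ⟨b, hb⟩) ∧
          IsRegularLocalRing (Localization.AtPrime ((maximalIdeal R).comap γ')) :=
  Pool.Agent.H413.BR.seq_field M hM hne 1 N hNfin (by rwa [pow_one]) (by
    intro g hg hg0 P hP hf
    obtain ⟨f, hf, hfP⟩ := hf
    refine @hreg g hg hg0 P hP ⟨f, hf, fun h hc => ?_⟩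
    have h' : f / g ^ 1 ∈ coordRing M g := by rw [pow_one]; exact h
    have e : (⟨f / g ^ 1, h'⟩ : coordRing M g) = ⟨f / g, h⟩ :=
      Subtype.ext (congrArg (fun x => f / x) (pow_one g))
    refine hfP h' ?_
    have hc' : (⟨f / g ^ 1, h'⟩ : coordRing M g) ∈ P := by rw [e]; exact hc
    exact hc')

/-- Let `X = X_M` be a projective variety over a field `k`, and let `Z` be the zero set of a finite
set `N` of linear forms (elements of `M`), such that all points of `X` outside of `Z` are regular.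
There are finite dimensional subspaces `K 0, K 1, …` of `F` such that for the blowings up `X d` of
`X` attached to `M * K 0 * ⋯ * K (d - 1)`: the blowing up `X (d + 1) → X d` of `K d` is an isomorphism
over all regular points of `X d`; and, for every `d` and every curve of degree at most `d` in `X` which is
not contained in `Z`, all points of the strict transform of the curve in `X d` are regular points of
`X d`. -/
theorem result (k F : Type) [Field k] [Field F] [Algebra k F] (M : Submodule k F) (hM : M.FG)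
    (hM0 : ∃ g ∈ M, g ≠ 0) (N : Set F) (hNfin : N.Finite) (hN : N ⊆ M)
    (hreg : ∀ g ∈ M, g ≠ 0 → ∀ (P : Ideal (coordRing M g)) [P.IsPrime], IsOutside M N g P →
      IsRegularLocalRing (Localization.AtPrime P)) :
    ∃ K : ℕ → Submodule k F, (∀ d, (K d).FG ∧ ∃ j ∈ K d, j ≠ 0) ∧
      (∀ d, ∀ g ∈ M * ∏ i ∈ Finset.range d, K i, g ≠ 0 →
        ∀ (P : Ideal (coordRing (M * ∏ i ∈ Finset.range d, K i) g)) [P.IsPrime],
          IsRegularLocalRing (Localization.AtPrime P) →
          IsIsoAt (M * ∏ i ∈ Finset.range d, K i) (K d) g P) ∧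
      ∀ d, ∀ g ∈ M, g ≠ 0 → ∀ (L : Type) [Field L] [Algebra k L] (γ : coordRing M g →ₐ[k] L),
        HasDegreeAtMost M g γ d → IsOutside M N g (RingHom.ker γ) →
        ∀ (V : ValuationSubring L) [IsDiscreteValuationRing V], (∀ a : k, algebraMap k L a ∈ V) →
          IsRegularOnStrictTransform M (∏ i ∈ Finset.range d, K i) g γ V := by
  obtain ⟨K, hK, h1, h2⟩ := seq_coord M hM hM0 N hNfin hN hreg
  refine ⟨K, hK, h1, ?_⟩
  intro d g hg hg0 L _ _ γ hdeg hfγ V _ hkV
  obtain ⟨f, hf, hfγ⟩ := hfγ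
  replace hfγ : ∀ h, γ ⟨f / g, h⟩ ≠ 0 := fun h h' => hfγ h ((RingHom.mem_ker).2 h')
  have hmem : ∀ (M : Submodule k F), ∀ u ∈ M, ∀ g' : F, u / g' ∈ coordRing M g' :=
    fun M u hu g' => Algebra.subset_adjoin ⟨u, hu, rfl⟩
  obtain ⟨g₁, hg₁, hg₁0, hg₁γ, γ₁, hγ₁⟩ := chart_trait hM hg hg0 (γ : coordRing M g →+* L) V
    (fun a => by
      have e : (γ : coordRing M g →+* L) (algebraMap k (coordRing M g) a) = algebraMap k L a :=
        γ.commutes a
      rw [e]
      exact hkV a)
  have hc : γ ⟨g₁ / g, hmem M g₁ hg₁ g⟩ ≠ 0 := hg₁γ _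
  have e1 : ∀ u (hu : u ∈ M), ((γ₁ ⟨u / g₁, hmem M u hu g₁⟩ : V) : L) *
      γ ⟨g₁ / g, hmem M g₁ hg₁ g⟩ = γ ⟨u / g, hmem M u hu g⟩ := fun u hu => hγ₁ u hu _ _ _
  have ht : ((γ₁ ⟨f / g₁, hmem M f (hN hf) g₁⟩ : V) : L) =
      γ ⟨f / g, hmem M f (hN hf) g⟩ / γ ⟨g₁ / g, hmem M g₁ hg₁ g⟩ := by
    rw [eq_div_iff hc]
    exact e1 f (hN hf)
  have ht0 : ((γ₁ ⟨f / g₁, hmem M f (hN hf) g₁⟩ : V) : L) ≠ 0 := by
    rw [ht]
    exact div_ne_zero (hfγ _) hc
  have hord := ord_le V hkV (γ₁ ⟨f / g₁, hmem M f (hN hf) g₁⟩ : V).2 ht0 (δ := d) (by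
    rw [ht]
    exact hdeg f (hN hf) g₁ hg₁ _ _ hc)
  obtain ⟨j, hj, hj0, γ', hext, hreg'⟩ := h2 d g₁ hg₁ hg₁0 V γ₁ ⟨f, hf, fun h hcon => by
    have e : (⟨f / g₁ ^ 1, h⟩ : coordRing M g₁) = ⟨f / g₁, hmem M f (hN hf) g₁⟩ :=
      Subtype.ext (congrArg (fun x => f / x) (pow_one g₁))
    rw [e] at hcon
    exact hord hcon⟩
  have hmemJ : ∀ u ∈ M, u / g₁ ∈ coordRing (M * ∏ i ∈ Finset.range d, K i) (g₁ * j) := by
    intro u hu
    have e : u / g₁ = (u * j) / (g₁ * j) := by field_simp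
    rw [e]
    exact hmem _ _ (Submodule.mul_mem_mul hu hj) _
  refine ⟨g₁ * j, Submodule.mul_mem_mul hg₁ hj, mul_ne_zero hg₁0 hj0, γ', ?_, hreg'⟩
  intro u hu l hl a₁ a₂ a₃
  have b2 : (g₁ * l) / (g₁ * j) ∈ coordRing (M * ∏ i ∈ Finset.range d, K i) (g₁ * j) :=
    hmem _ _ (Submodule.mul_mem_mul hg₁ hl) _
  have c1 : (⟨u * l / (g₁ * j), a₁⟩ : coordRing (M * ∏ i ∈ Finset.range d, K i) (g₁ * j)) =
      ⟨u / g₁, hmemJ u hu⟩ * ⟨(g₁ * l) / (g₁ * j), b2⟩ := by
    apply Subtype.ext
    change u * l / (g₁ * j) = u / g₁ * ((g₁ * l) / (g₁ * j))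
    field_simp
  have c2 : (⟨g * l / (g₁ * j), a₃⟩ : coordRing (M * ∏ i ∈ Finset.range d, K i) (g₁ * j)) =
      ⟨g / g₁, hmemJ g hg⟩ * ⟨(g₁ * l) / (g₁ * j), b2⟩ := by
    apply Subtype.ext
    change g * l / (g₁ * j) = g / g₁ * ((g₁ * l) / (g₁ * j))
    field_simp
  have x1 : γ' ⟨u / g₁, hmemJ u hu⟩ = γ₁ ⟨u / g₁, hmem M u hu g₁⟩ := hext _ _ _
  have x2 : γ' ⟨g / g₁, hmemJ g hg⟩ = γ₁ ⟨g / g₁, hmem M g hg g₁⟩ := hext _ _ _
  have y1 : ((γ' ⟨u * l / (g₁ * j), a₁⟩ : V) : L) = (γ₁ ⟨u / g₁, hmem M u hu g₁⟩ : V) *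
      ((γ' ⟨(g₁ * l) / (g₁ * j), b2⟩ : V) : L) := by
    rw [c1]
    have : γ' (⟨u / g₁, hmemJ u hu⟩ * ⟨(g₁ * l) / (g₁ * j), b2⟩) =
      γ' ⟨u / g₁, hmemJ u hu⟩ * γ' ⟨(g₁ * l) / (g₁ * j), b2⟩ := map_mul γ' _ _
    rw [this, x1]
    rfl
  have y2 : ((γ' ⟨g * l / (g₁ * j), a₃⟩ : V) : L) = (γ₁ ⟨g / g₁, hmem M g hg g₁⟩ : V) *
      ((γ' ⟨(g₁ * l) / (g₁ * j), b2⟩ : V) : L) := by
    rw [c2]
    have : γ' (⟨g / g₁, hmemJ g hg⟩ * ⟨(g₁ * l) / (g₁ * j), b2⟩) =
      γ' ⟨g / g₁, hmemJ g hg⟩ * γ' ⟨(g₁ * l) / (g₁ * j), b2⟩ := map_mul γ' _ _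
    rw [this, x2]
    rfl
  have z1 := e1 u hu
  have z2 := e1 g hg
  have z3 : γ ⟨g / g, hmem M g hg g⟩ = 1 := by
    have : (⟨g / g, hmem M g hg g⟩ : coordRing M g) = 1 := Subtype.ext (div_self hg0)
    rw [this, map_one]
  rw [z3] at z2
  rw [y1, y2, ← z1]
  linear_combination (-((γ' ⟨(g₁ * l) / (g₁ * j), b2⟩ : V) : L)) *
    ((γ₁ ⟨u / g₁, hmem M u hu g₁⟩ : V) : L) * z2

end Pool.Agent.Results.MP_b525bf_ag.CurvesOfBoundedDegree
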