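import Pool.Agent.H893.TW.Cls

/-!
MP_b525bf_ag: simultaneous log uniformization of finitely many valuations with defect, in positive
characteristic and in all dimensions.

Let `k` be a perfect field of characteristic `p > 0` and let `K` be a finitely generated field over
`k`. We call a valuation `v` of `K / k` of rank one nearly Abhyankar if it misses
equality in the Abhyankar inequality by at most one: `tr.deg(K / k)` is `r + s` or `r + s + 1`,
where `r ≥ 1` is the rational rank and `s` is the transcendence degree of the residue field; in the
second case the residue field has to be finitely generated over `k`, and infinite if `r = 1`. (If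
`k` is algebraically closed and `s = 0`, these are all zero-dimensional valuations of rank one and
of rational rank at least `tr.deg(K / k) - 1`.) In the second case the value group is arbitrary, and
the finite extensions of `K` over the subfields generated by transcendence bases can have an
arbitrary defect. We call `v` ruled of deficiency two if its residue field is finitely generated
over `k`, `tr.deg(K / k) = r + s + 2` with `r ≥ 2`, and `K = E(t)` for a finitely generated subfield
`E` of the transcendence degree `r + s + 1` over `k` which contains elements with `r` independent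
values and lifts of the elements of a separating transcendence basis of the residue field.

Let `v 0, ..., v (m - 1)` be finitely many valuations with different valuation rings, each of which
is nearly Abhyankar or ruled of deficiency two, and let `X = Spec A` be an affine variety with the
function field `K` on which they are centred; their centres need not be different. The fields `E` in
the second case may depend on the valuation. For every closed subset `V(D) ≠ X` and for every
blowing-up `X₀` of `X` there is a blowing-up `X'` of `X` in the product of the ideal of `X₀` and of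
an ideal `I₁`, which is a log desingularization of `(X, V(D))` along all the `v i` at the same
time: `X'` is regular at the centres of all `v i` and the preimage of `V(D)` and of the centre of
the blowing-up is a divisor with strict normal crossings there. The zero set of `I₁` is contained
in the union of the closures of the centres of the `v i` on `X`; so `X' → X₀` is an isomorphism
outside of the preimage of these closures (of finitely many closed points, if the residue fields
are algebraic over `k`).
-/

set_option autoImplicit false

universe u

namespace Pool.Agent.Results.MP_b525bf_ag.SimultaneousUniformization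

open IsLocalRing Pool.Agent.W418.LU2
open scoped NNReal

/-- The local ring of `Spec B` at the centre of the valuation ring `V`: the fractions of elements
of `B` whose denominators are units of `V`. -/
def centreRing {F : Type u} [Field F] (V : ValuationSubring F) (B : Subring F) : Subring F where
  carrier := {x | ∃ a ∈ B, ∃ b ∈ B, b ≠ 0 ∧ b⁻¹ ∈ V ∧ x = a * b⁻¹}
  mul_mem' := (lo V.toSubring B).mul_mem'
  one_mem' := (lo V.toSubring B).one_mem'
  add_mem' := (lo V.toSubring B).add_mem'
  zero_mem' := (lo V.toSubring B).zero_mem'
  neg_mem' := (lo V.toSubring B).neg_mem'

/-- The chart `A[I / f]` of the blowing-up of `Spec A` in the ideal `I`. -/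
def blowUpChart {F : Type u} [Field F] (A : Subring F) (I : Ideal A) (f : A) : Subring F :=
  Subring.closure ((A : Set F) ∪ {z | ∃ a ∈ I, z = (a : F) / (f : F)})

/-- `P` is a regular local ring and the zero set of `J` is a divisor with strict normal
crossings: the radical of `J` is generated by the product of some of the elements of a regular
system of parameters. -/
def RegularPair (P : Type u) [CommRing P] (J : Ideal P) : Prop :=
  ∃ (_ : IsRegularLocalRing P) (n : ℕ) (x : Fin n → P) (s : Finset (Fin n)),
    Ideal.span (Set.range x) = IsLocalRing.maximalIdeal P ∧ ringKrullDim P = n ∧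
      J.radical = Ideal.span {∏ i ∈ s, x i}

/-- The blowing-up of `X = Spec A` in `V(I)` is a log desingularization of `(X, V(D))` along the
valuation ring `V`. Here `f ∈ I` generates `I V`, the centre of the lift of the valuation lies in
the chart `Spec A[I / f]`, and the ideal `D I` defines the preimage of `V(D) ∪ V(I)`. -/
def IsLogDesingularization {F : Type u} [Field F] (V : ValuationSubring F) (A : Subring F)
    (D I : Ideal A) : Prop :=
  ∃ f ∈ I, f ≠ 0 ∧ (∀ a ∈ I, (a : F) / (f : F) ∈ V) ∧
    RegularPair (centreRing V (blowUpChart A I f))
      (Ideal.span {z | ∃ a ∈ D * I, (z : F) = (a : F)})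

/-- The valuation rings `V i` are simultaneously log uniformizable on `X = Spec A`: for every closed
subset `V(D) ≠ X` and for every blowing-up `X₀` of `X` in an ideal `I₀` there is an ideal `I₁` such
that the blowing-up in `I₀ * I₁`, which factors through `X₀`, is a log desingularization of
`(X, V(D))` along all the `V i`, and every prime ideal which contains `I₁` contains the centre
`{a ∈ A | |a| < 1}` of some `V i`. -/
def IsSimultaneouslyLogUniformizable {F : Type u} [Field F] {m : ℕ}
    (V : Fin m → ValuationSubring F) (A : Subring F) : Prop :=
  ∀ D I₀ : Ideal A, D ≠ ⊥ → I₀ ≠ ⊥ →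
    ∃ I₁ : Ideal A, I₁ ≠ ⊥ ∧ (∀ i, IsLogDesingularization (V i) A D (I₀ * I₁)) ∧
      ∀ q : Ideal A, q.IsPrime → I₁ ≤ q → ∃ i, ∀ a : A, (V i).valuation (a : F) < 1 → a ∈ q

/-- The value group of `v` has the rational rank `r`: there are `r` nonzero elements of `K` with
independent values, and every value has a power which is a product of powers of their values. -/
def HasRationalRank {K : Type u} [Field K] (v : Valuation K ℝ≥0) (r : ℕ) : Prop :=
  ∃ x : Fin r → K, (∀ i, x i ≠ 0) ∧ (∀ m : Fin r → ℤ, ∏ i, v (x i) ^ m i = 1 → m = 0) ∧
    ∀ z : K, z ≠ 0 → ∃ n : ℕ, n ≠ 0 ∧ ∃ m : Fin r → ℤ, v z ^ n = ∏ i, v (x i) ^ m i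

/-- The homomorphism from the ground field `k` to the residue field of a valuation `v` of `K` which
is trivial on `k`. -/
noncomputable def residueMap {k K : Type u} [Field k] [Field K] [Algebra k K]
    (v : Valuation K ℝ≥0) (hk : ∀ c : k, c ≠ 0 → v (algebraMap k K c) = 1) :
    k →+* ResidueField v.valuationSubring :=
  (residue v.valuationSubring).comp
    ((algebraMap k K).codRestrict v.valuationSubring.toSubring
      (Pool.Agent.H893.DD.kV_mem v hk))

/-- The residue field of `v` as an extension field of the ground field `k`. -/
noncomputable abbrev residueAlgebra {k K : Type u} [Field k] [Field K] [Algebra k K]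
    (v : Valuation K ℝ≥0) (hk : ∀ c : k, c ≠ 0 → v (algebraMap k K c) = 1) :
    Algebra k (ResidueField v.valuationSubring) :=
  (residueMap v hk).toAlgebra

/-- The valuation `v` of rank one of the extension field `K` of `k` is nearly Abhyankar: it is
trivial on `k`, has the rational rank `r ≥ 1`, and its deficiency
`tr.deg(K / k) - tr.deg(κ(v) / k) - r` is zero (the case of equality in the Abhyankar inequality) or
one. If it is one, the residue field `κ(v)` is finitely generated over `k`, and infinite if
`r = 1`. -/
def IsNearlyAbhyankar (k : Type u) {K : Type u} [Field k] [Field K] [Algebra k K]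
    (v : Valuation K ℝ≥0) : Prop :=
  ∃ (hk : ∀ c : k, c ≠ 0 → v (algebraMap k K c) = 1) (r : ℕ), 1 ≤ r ∧ HasRationalRank v r ∧
    (letI := residueAlgebra v hk
     Algebra.trdeg k K = Algebra.trdeg k (ResidueField v.valuationSubring) + (r : Cardinal) ∨
      (Algebra.trdeg k K =
          Algebra.trdeg k (ResidueField v.valuationSubring) + ((r + 1 : ℕ) : Cardinal) ∧
        Algebra.EssFiniteType k (ResidueField v.valuationSubring) ∧
        (r = 1 → Infinite (ResidueField v.valuationSubring))))

/-- The valuation `v` of rank one of the extension field `K` of `k` is ruled of deficiency two: it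
is trivial on `k`, and `K = E(t)` for a finitely generated subfield `E ⊇ k`, such that
`tr.deg(K / k) = r + s + 2` and `tr.deg(E / k) = r + s + 1`, where `s` is the transcendence degree
of the residue field `κ(v)` over `k` and `r ≥ 2` is the rational rank of `v` and of its restriction
to `E`: there are `x i ∈ E`, `i < r`, with independent values, and every value of `K` has a power
which is a product of powers of their values. Moreover, `κ(v)` is finitely generated over `k`, and
`E` contains lifts of the elements of a separating transcendence basis of `κ(v)` over `k`. -/
def IsRuledOfDeficiencyTwo (k : Type u) {K : Type u} [Field k] [Field K] [Algebra k K]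
    (v : Valuation K ℝ≥0) : Prop :=
  ∃ (hk : ∀ c : k, c ≠ 0 → v (algebraMap k K c) = 1) (E : IntermediateField k K) (t : K) (r : ℕ)
    (x : Fin r → E), Algebra.EssFiniteType k E ∧
    E ⊔ IntermediateField.adjoin k {t} = ⊤ ∧ 2 ≤ r ∧ (∀ i, x i ≠ 0) ∧
    (∀ m : Fin r → ℤ, ∏ i, v (x i : K) ^ m i = 1 → m = 0) ∧
    (∀ z : K, z ≠ 0 → ∃ n : ℕ, n ≠ 0 ∧ ∃ m : Fin r → ℤ, v z ^ n = ∏ i, v (x i : K) ^ m i) ∧
    (letI := residueAlgebra v hk
     Algebra.EssFiniteType k (ResidueField v.valuationSubring) ∧
      (∃ s : Finset (ResidueField v.valuationSubring),
        IsTranscendenceBasis k ((↑) : s → ResidueField v.valuationSubring) ∧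
        Algebra.IsSeparable
          (IntermediateField.adjoin k (s : Set (ResidueField v.valuationSubring)))
          (ResidueField v.valuationSubring) ∧
        ∀ i ∈ s, ∃ y : v.valuationSubring, (y : K) ∈ E ∧ residue v.valuationSubring y = i) ∧
      Algebra.trdeg k E =
        Algebra.trdeg k (ResidueField v.valuationSubring) + ((r + 1 : ℕ) : Cardinal) ∧
      Algebra.trdeg k K =
        Algebra.trdeg k (ResidueField v.valuationSubring) + ((r + 2 : ℕ) : Cardinal))

/-- Let `k` be a perfect field of characteristic `p > 0`, let `K` be a finitely generated field over
`k`, and let `v i` be finitely many valuations of `K` whose valuation rings are pairwise different,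
such that each `v i` is nearly Abhyankar or ruled of deficiency two. Let `A` be a finitely generated
`k`-algebra with the fraction field `K` which is contained in all these valuation rings. Then they
are simultaneously log uniformizable on `X = Spec A`: for every closed subset `V(D) ≠ X` and for
every blowing-up `X₀` of `X` there is a blowing-up of `X` which factors through `X₀` and which is a
log desingularization of `(X, V(D))` along all `v i`; it is an isomorphism over `X₀` outside of the
closures of the centres. -/
theorem result {k K : Type u} [Field k] (p : ℕ) [Fact p.Prime] [CharP k p] [PerfectField k]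
    [Field K] [Algebra k K] [Algebra.EssFiniteType k K] {m : ℕ} (v : Fin m → Valuation K ℝ≥0)
    (hv : ∀ i, IsNearlyAbhyankar k (v i) ∨ IsRuledOfDeficiencyTwo k (v i))
    (hne : ∀ i j, i ≠ j → (v i).valuationSubring ≠ (v j).valuationSubring)
    (G : Set K) (hG : G.Finite) (A : Subring K)
    (hA : A = Subring.closure (Set.range (algebraMap k K) ∪ G))
    (hAV : ∀ i, A ≤ (v i).valuationSubring.toSubring)
    (hAK : ∀ z : K, ∃ a ∈ A, ∃ b ∈ A, b ≠ 0 ∧ z = a * b⁻¹) :
    IsSimultaneouslyLogUniformizable (fun i => (v i).valuationSubring) A := by
  have hk : ∀ i, ∀ c : k, c ≠ 0 → v i (algebraMap k K c) = 1 := by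
    intro i
    rcases hv i with ⟨hk, -⟩ | ⟨hk, -⟩
    · exact hk
    · exact hk
  intro D I₀ hD hI₀
  obtain ⟨I₁, h1, h2, h3⟩ := Pool.Agent.H893.TW.sim_perf3 p v hne hk (fun i => by
    rcases hv i with ⟨hk', r, hr, ⟨x, hx0, hind, hrr⟩, h⟩ | ⟨hk', h⟩
    · exact Or.inl ⟨r, x, hr, h, hx0, hind, hrr⟩
    · exact Or.inr h) G hG A hA (fun i => ⟨hAV i, hAK⟩) D I₀ hD hI₀
  refine ⟨I₁, h1, h2, fun q hq hIq => ?_⟩
  obtain ⟨i, hi⟩ := h3 q hq hIq
  exact ⟨i, fun a ha => hi a (Pool.Agent.H893.DD.val_lt_one_iff.1 ha)⟩

end Pool.Agent.Results.MP_b525bf_ag.SimultaneousUniformization
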