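import Pool.Agent.H937.QS.All

/-!
MP_b525bf_ag: resolution of the fourth symmetric powers of smooth affine varieties of arbitrary
dimension, and of the quotients of powers of affine varieties by the permutation groups obtained
from the symmetric groups on at most four letters, Sylow `p`-subgroups and cyclic groups by direct
and wreath products, in characteristic `p`.
-/

set_option autoImplicit false

open AlgebraicGeometry CategoryTheory TensorProduct Pool.Agent.H920R2

universe u

namespace Pool.Agent.Results.MP_b525bf_ag.SymmetricPowers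

section

variable {k B : Type u} [Field k] [CommRing B] [Algebra k B]

/-- The structure morphism of the spectrum of a subalgebra. -/
noncomputable def str (C : Subalgebra k B) :
    Spec (CommRingCat.of C) ⟶ Spec (CommRingCat.of k) :=
  Spec.map (CommRingCat.ofHom (algebraMap k C))

/-- The spectrum of the subalgebra `C` is a variety (integral, separated and of finite type over
`k`) and has a resolution of singularities: there are an integral scheme `Y`, smooth over `k`, and
a proper morphism from `Y` to the spectrum which is an isomorphism over a dense open subset. -/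
def IsResolvable (C : Subalgebra k B) : Prop :=
  (AlgebraicGeometry.IsIntegral (Spec (CommRingCat.of C)) ∧ IsSeparated (str C) ∧
    LocallyOfFiniteType (str C) ∧ QuasiCompact (str C)) ∧
  ∃ (Y : Scheme.{u}) (π : Y ⟶ Spec (CommRingCat.of C)),
    AlgebraicGeometry.IsIntegral Y ∧ AlgebraicGeometry.IsProper π ∧
    AlgebraicGeometry.Smooth (π ≫ str C) ∧
    ∃ U : (Spec (CommRingCat.of C)).Opens, Dense (U : Set (Spec (CommRingCat.of C))) ∧
      IsIso (π ∣_ U)

end

/-- There is an ideal `(z 0, …, z l)` of `A` whose blowing-up is smooth over `k`: its charts are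
the spectra of the algebras `A[z 0 / z i, …, z l / z i]`. -/
def HasSmoothBlowUp (k A : Type u) [Field k] [CommRing A] [IsDomain A] [Algebra k A] : Prop :=
  ∃ (l : ℕ) (z : Fin (l + 1) → A), (∀ i, z i ≠ 0) ∧ ∀ i, Algebra.Smooth k
    (Algebra.adjoin k (Set.range (algebraMap A (FractionRing A)) ∪ Set.range fun j =>
      algebraMap A (FractionRing A) (z j) / algebraMap A (FractionRing A) (z i)))

/-- The permutation of the factors of the algebra `⨂ A`: it maps `⨂ a_i` to `⨂ a_{π i}`. -/
noncomputable def perm (k A : Type u) [Field k] [CommRing A] [Algebra k A] {n : ℕ}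
    (π : Equiv.Perm (Fin n)) : (⨂[k] _ : Fin n, A) →ₐ[k] (⨂[k] _ : Fin n, A) :=
  PiTensorProduct.liftAlgHom
    ((PiTensorProduct.tprod k : MultilinearMap k (fun _ : Fin n => A) _).domDomCongr π)
    (by
      rw [MultilinearMap.domDomCongr_apply, PiTensorProduct.one_def]
      rfl)
    (by
      intro x y
      rw [MultilinearMap.domDomCongr_apply, MultilinearMap.domDomCongr_apply,
        MultilinearMap.domDomCongr_apply, PiTensorProduct.tprod_mul_tprod]
      rfl)

theorem perm_tprod (k A : Type u) [Field k] [CommRing A] [Algebra k A] {n : ℕ}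
    (π : Equiv.Perm (Fin n)) (a : Fin n → A) :
    perm k A π (PiTensorProduct.tprod k a) = PiTensorProduct.tprod k fun i => a (π i) :=
  PiTensorProduct.lift.tprod a

/-- The algebra of the elements of `⨂ A` which are invariant under the group `P` of permutations
of the factors: the coordinate ring of the quotient by `P` of the `n`-th power of `Spec A`. -/
noncomputable def invariants (k A : Type u) [Field k] [CommRing A] [Algebra k A] {n : ℕ}
    (P : Subgroup (Equiv.Perm (Fin n))) : Subalgebra k (⨂[k] _ : Fin n, A) :=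
  ⨅ π ∈ P, AlgHom.equalizer (perm k A π) (AlgHom.id k _)

theorem mem_invariants {k A : Type u} [Field k] [CommRing A] [Algebra k A] {n : ℕ}
    {P : Subgroup (Equiv.Perm (Fin n))} {x : ⨂[k] _ : Fin n, A} :
    x ∈ invariants k A P ↔ ∀ π ∈ P, perm k A π x = x := by
  unfold invariants
  simp only [Algebra.mem_iInf]
  rfl

/-- The direct product of two permutation groups, acting on the disjoint union. -/
def directProduct {ι ι' : Type} (P : Subgroup (Equiv.Perm ι)) (P' : Subgroup (Equiv.Perm ι')) :
    Subgroup (Equiv.Perm (ι ⊕ ι')) where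
  carrier := {f | ∃ g ∈ P, ∃ g' ∈ P', (∀ i, f (Sum.inl i) = Sum.inl (g i)) ∧
    ∀ i, f (Sum.inr i) = Sum.inr (g' i)}
  mul_mem' := (Pool.Agent.W559.Wr.prodGrp P P').mul_mem'
  one_mem' := (Pool.Agent.W559.Wr.prodGrp P P').one_mem'
  inv_mem' := (Pool.Agent.W559.Wr.prodGrp P P').inv_mem'

/-- The wreath product of two permutation groups, acting on the product: it consists of the
permutations `(i, j) ↦ (g j (i), h (j))` with all `g j` in `P` and `h` in `P'`. -/
def wreathProduct {ι ι' : Type} (P : Subgroup (Equiv.Perm ι)) (P' : Subgroup (Equiv.Perm ι')) :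
    Subgroup (Equiv.Perm (ι × ι')) where
  carrier := {f | ∃ h ∈ P', ∃ g : ι' → Equiv.Perm ι, (∀ j, g j ∈ P) ∧
    ∀ i j, f (i, j) = (g j i, h j)}
  mul_mem' := (Pool.Agent.W559.Wr.wrGrp P P').mul_mem'
  one_mem' := (Pool.Agent.W559.Wr.wrGrp P P').one_mem'
  inv_mem' := (Pool.Agent.W559.Wr.wrGrp P P').inv_mem'

/-- The permutation groups which are obtained from the symmetric groups on at most four letters,
the Sylow `p`-subgroups of symmetric groups and the cyclic groups generated by permutations `π`
with `π ^ N = 1` by direct products, wreath products and relabelling. -/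
inductive IsTower (p N : ℕ) : (ι : Type) → Subgroup (Equiv.Perm ι) → Prop
  | symmetric (n : ℕ) (hn : n ≤ 4) : IsTower p N (Fin n) ⊤
  | sylow (n : ℕ) (S : Sylow p (Equiv.Perm (Fin n))) : IsTower p N (Fin n) S
  | cyclic (n : ℕ) (π : Equiv.Perm (Fin n)) (hπ : π ^ N = 1) :
      IsTower p N (Fin n) (Subgroup.zpowers π)
  | product (ι ι' : Type) (P : Subgroup (Equiv.Perm ι)) (P' : Subgroup (Equiv.Perm ι')) :
      IsTower p N ι P → IsTower p N ι' P' → IsTower p N (ι ⊕ ι') (directProduct P P')
  | wreath (ι ι' : Type) (P : Subgroup (Equiv.Perm ι)) (P' : Subgroup (Equiv.Perm ι')) :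
      IsTower p N ι P → IsTower p N ι' P' → IsTower p N (ι × ι') (wreathProduct P P')
  | relabel (ι ι' : Type) (f : ι ≃ ι') (P : Subgroup (Equiv.Perm ι)) : IsTower p N ι P →
      IsTower p N ι' (P.map (f.permCongrHom : Equiv.Perm ι ≃* Equiv.Perm ι').toMonoidHom)

theorem adm_of_tower {p N : ℕ} {ι : Type} {P : Subgroup (Equiv.Perm ι)} (h : IsTower p N ι P) :
    Pool.Agent.H937.QS.Adm p N ι P := by
  induction h with
  | symmetric n hn => exact .symmetric n hn
  | sylow n S => exact .sylow n S
  | cyclic n π hπ => exact .cyclic n π hπ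
  | product ι ι' P P' _ _ h h' => exact .product ι ι' P P' h h'
  | wreath ι ι' P P' _ _ h h' => exact .wreath ι ι' P P' h h'
  | relabel ι ι' f P _ h => exact .relabel ι ι' f P h

/-- A smooth affine variety is a smooth blowing-up of itself. -/
theorem hasSmoothBlowUp_of_smooth (k A : Type u) [Field k] [CommRing A] [IsDomain A] [Algebra k A]
    [Algebra.Smooth k A] : HasSmoothBlowUp k A := by
  refine ⟨0, fun _ => 1, fun _ => one_ne_zero, fun i => ?_⟩
  have h1 : Algebra.adjoin k (Set.range (algebraMap A (FractionRing A)) ∪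
      Set.range fun _ : Fin (0 + 1) => algebraMap A (FractionRing A) 1 /
        algebraMap A (FractionRing A) 1) =
      (IsScalarTower.toAlgHom k A (FractionRing A)).range := by
    apply le_antisymm
    · rw [Algebra.adjoin_le_iff]
      rintro _ (⟨a, rfl⟩ | ⟨_, rfl⟩)
      · exact ⟨a, rfl⟩
      · exact ⟨1, by simp⟩
    · rintro _ ⟨a, rfl⟩
      exact Algebra.subset_adjoin (Or.inl ⟨a, rfl⟩)
  rw [h1]
  have hinj : Function.Injective (IsScalarTower.toAlgHom k A (FractionRing A)) :=
    IsFractionRing.injective A (FractionRing A)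
  exact Algebra.Smooth.of_equiv (AlgEquiv.ofInjective _ hinj)

lemma spmr_of_blowUp {k A : Type u} [Field k] [CommRing A] [IsDomain A] [Algebra k A]
    (h : HasSmoothBlowUp k A) : Pool.Agent.W559.Wr.SPMR k (FractionRing A)
      (IsScalarTower.toAlgHom k A (FractionRing A)).range := by
  obtain ⟨l, z, hz, hsm⟩ := h
  refine ⟨l, fun i => algebraMap A (FractionRing A) (z i), fun i => ?_, fun i => ?_, ?_⟩
  · intro h
    exact hz i ((map_eq_zero_iff _ (IsFractionRing.injective A (FractionRing A))).1 h)
  · have h1 := hsm i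
    rw [Algebra.adjoin_union] at h1
    have h2 : Algebra.adjoin k (Set.range (algebraMap A (FractionRing A))) =
        (IsScalarTower.toAlgHom k A (FractionRing A)).range := by
      apply le_antisymm
      · rw [Algebra.adjoin_le_iff]
        rintro _ ⟨a, rfl⟩
        exact ⟨a, rfl⟩
      · rintro _ ⟨a, rfl⟩
        exact Algebra.subset_adjoin ⟨a, rfl⟩
    rw [h2] at h1
    exact h1
  · rw [eq_top_iff]
    intro x _
    obtain ⟨a, b, hb, rfl⟩ := IsFractionRing.div_surjective (A := A) x
    apply div_mem
    · exact IntermediateField.subset_adjoin k _ (Or.inl ⟨a, rfl⟩)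
    · exact IntermediateField.subset_adjoin k _ (Or.inl ⟨b, rfl⟩)

/-- Let `p` be a prime, `k` an infinite field of characteristic `p` and `W = Spec A` an affine
variety over `k` which is smooth or, more generally, has a resolution of singularities by the
blowing-up of an ideal. Let `m > 0` be such that `k` contains a primitive `m`-th root of unity
(`m = 1` is always possible). Let `P` be a group of permutations of `1, …, n` which is obtained
from the symmetric groups on at most four letters, the Sylow `p`-subgroups of symmetric groups and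
the cyclic permutation groups of order dividing `p ^ 2 * m` by direct and wreath products. If the
power `W ^ n` is integral, for instance if `k` is algebraically closed, then the quotient of `W ^ n`
by `P` is a variety and has a resolution of singularities. In particular this holds for the
symmetric powers `W ^ n / S_n` with `n ≤ 4`. -/
theorem result (p : ℕ) [Fact p.Prime] (k : Type u) [Field k] [CharP k p] [Infinite k]
    (A : Type u) [CommRing A] [IsDomain A] [Algebra k A] [Algebra.FiniteType k A]
    (hA : Algebra.Smooth k A ∨ HasSmoothBlowUp k A) (n : ℕ)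
    (hdom : IsAlgClosed k ∨ IsDomain (⨂[k] _ : Fin n, A)) (m : ℕ) (ω : k) (hm : 0 < m)
    (hω : IsPrimitiveRoot ω m) (P : Subgroup (Equiv.Perm (Fin n)))
    (hP : IsTower p (p ^ 2 * m) (Fin n) P) :
    IsResolvable (invariants k A P) := by
  have hp : p.Prime := Fact.out
  have hpk : (p : k) = 0 := CharP.cast_eq_zero k p
  have hA' : HasSmoothBlowUp k A := by
    rcases hA with h | h
    · exact hasSmoothBlowUp_of_smooth k A
    · exact h
  have hdomB : IsDomain (⨂[k] _ : Fin n, A) := by
    rcases hdom with h | h
    · exact isDomain_pi n fun _ => A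
    · exact h
  have hQ : Pool.Agent.W559.Wr.QQR k (Fin n) P := by
    have h1 := adm_of_tower hP
    rw [pow_two] at h1
    exact Pool.Agent.H937.QS.qqR_of_adm Pool.Agent.H937.QS.qq3' Pool.Agent.H937.QS.qq4' hp hpk
      (Pool.Agent.W559.Et.cast_ne hm hω) ⟨ω, hω⟩ h1 _
  have hj := isCoprod_pi (k := k) (A := fun _ : Fin n => A)
  have hcomp : ∀ π π' : Equiv.Perm (Fin n), π * π' = 1 →
      (perm k A π).comp (perm k A π') = AlgHom.id k _ := by
    intro π π' h
    apply hj.ext
    intro i a
    change perm k A π (perm k A π' (PiTensorProduct.tprod k (MonoidHom.mulSingle _ i a))) =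
      PiTensorProduct.tprod k (MonoidHom.mulSingle _ i a)
    rw [perm_tprod, perm_tprod]
    congr 1
    funext l
    have h1 : π' (π l) = l := by
      have h2 : π' * π = 1 := by
        rw [mul_eq_one_iff_eq_inv] at h ⊢
        rw [h, inv_inv]
      exact congrArg (fun s : Equiv.Perm (Fin n) => s l) h2
    rw [h1]
  let s : Equiv.Perm (Fin n) → ((⨂[k] _ : Fin n, A) ≃ₐ[k] (⨂[k] _ : Fin n, A)) := fun π =>
    AlgEquiv.ofAlgHom (perm k A π) (perm k A π⁻¹) (hcomp _ _ (mul_inv_cancel π))
      (hcomp _ _ (inv_mul_cancel π))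
  have hs : ∀ π i a, s π (PiTensorProduct.singleAlgHom (R := k) (A := fun _ : Fin n => A) i a) =
      PiTensorProduct.singleAlgHom (R := k) (A := fun _ : Fin n => A) (π⁻¹ i) a := by
    intro π i a
    change perm k A π (PiTensorProduct.tprod k (MonoidHom.mulSingle _ i a)) =
      PiTensorProduct.tprod k (MonoidHom.mulSingle _ (π⁻¹ i) a)
    rw [perm_tprod]
    congr 1
    funext l
    rw [MonoidHom.mulSingle_apply, MonoidHom.mulSingle_apply]
    by_cases hl : l = π⁻¹ i
    · have h1 : π l = i := by
        rw [hl]
        exact Equiv.apply_symm_apply π i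
      rw [h1, hl, Pi.mulSingle_eq_same, Pi.mulSingle_eq_same]
    · rw [Pi.mulSingle_eq_of_ne hl, Pi.mulSingle_eq_of_ne]
      intro h
      apply hl
      rw [← h]
      exact (Equiv.symm_apply_apply π l).symm
  have hS : ∀ x, x ∈ invariants k A P ↔
      ∀ σ : (⨂[k] _ : Fin n, A) ≃ₐ[k] (⨂[k] _ : Fin n, A), (∃ g ∈ P, ∀ i a,
      σ (PiTensorProduct.singleAlgHom (R := k) (A := fun _ : Fin n => A) i a) =
      PiTensorProduct.singleAlgHom (R := k) (A := fun _ : Fin n => A) (g i) a) → σ x = x := by
    intro x
    rw [mem_invariants]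
    constructor
    · rintro hx σ ⟨g, hg, h⟩
      have h1 : ((σ : (⨂[k] _ : Fin n, A) ≃ₐ[k] (⨂[k] _ : Fin n, A)) :
          (⨂[k] _ : Fin n, A) →ₐ[k] (⨂[k] _ : Fin n, A)) = perm k A g⁻¹ := by
        apply hj.ext
        intro i a
        change σ (PiTensorProduct.singleAlgHom (R := k) (A := fun _ : Fin n => A) i a) =
          s g⁻¹ (PiTensorProduct.singleAlgHom (R := k) (A := fun _ : Fin n => A) i a)
        rw [h, hs, inv_inv]
      have h2 := hx g⁻¹ (P.inv_mem hg)
      rw [← h1] at h2
      exact h2
    · intro hx π hπ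
      exact hx (s π) ⟨π⁻¹, P.inv_mem hπ, hs π⟩
  have hft : Algebra.FiniteType k (invariants k A P) :=
    Pool.Agent.W559.Wr.finiteType_inv P _ hS
  exact ⟨isVariety_spec, Pool.Agent.W839.Wr.finR Pool.Agent.W591.WRR.resol k A
    (spmr_of_blowUp hA') n P hQ _ hS⟩

end Pool.Agent.Results.MP_b525bf_ag.SymmetricPowers
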